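import Pool.Agent.H865.DT.Pos

/-!
# Closed images of `δθ`-refinable spaces: Lindelöf fibres and covers of size less than `ℵ_ω`

In ZFC, for a closed mapping `f : X → Y` with Lindelöf fibres (in particular for a perfect mapping)
of a `δθ`-refinable space `X`, every open cover of `Y` of cardinality less than `ℵ_ω` has a
sequence of open refinements as in the definition of `δθ`-refinability.
-/

set_option autoImplicit false

namespace Pool.Agent.Results.MP_17359d_gt.LindelofFibresSmallCovers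

open Set Topology Cardinal

universe u

/-- The open cover `𝒰` of `X` has a sequence of open covers refining it such that every point lies
in at most countably many members of one of them. -/
def HasDeltaThetaRefinement {X : Type u} [TopologicalSpace X] (𝒰 : Set (Set X)) : Prop :=
  ∃ 𝒱 : ℕ → Set (Set X),
    (∀ n, (∀ V ∈ 𝒱 n, IsOpen V) ∧ ⋃₀ 𝒱 n = Set.univ ∧ ∀ V ∈ 𝒱 n, ∃ U ∈ 𝒰, V ⊆ U) ∧
    ∀ x, ∃ n, {V ∈ 𝒱 n | x ∈ V}.Countable

/-- A space is `δθ`-refinable (submetalindelöf) if every open cover has such a sequence. -/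
def DeltaThetaRefinable (X : Type u) [TopologicalSpace X] : Prop :=
  ∀ 𝒰 : Set (Set X), (∀ U ∈ 𝒰, IsOpen U) → ⋃₀ 𝒰 = Set.univ → HasDeltaThetaRefinement 𝒰

/-- A closed mapping: a continuous surjection sending closed sets to closed sets. -/
structure ClosedMapping {X Y : Type u} [TopologicalSpace X] [TopologicalSpace Y]
    (f : X → Y) : Prop where
  continuous : Continuous f
  surjective : Function.Surjective f
  isClosedMap : IsClosedMap f

/-- Every open cover of `X` has a subcover of cardinality less than `κ`. -/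
def CoversHaveSubcoversBelow (κ : Cardinal.{u}) (X : Type u) [TopologicalSpace X] : Prop :=
  ∀ 𝒰 : Set (Set X), (∀ U ∈ 𝒰, IsOpen U) → ⋃₀ 𝒰 = Set.univ →
    ∃ 𝒱 : Set (Set X), 𝒱 ⊆ 𝒰 ∧ ⋃₀ 𝒱 = Set.univ ∧ #𝒱 < κ

variable {X Y : Type u} [TopologicalSpace X] [TopologicalSpace Y] {f : X → Y}

theorem main (hX : DeltaThetaRefinable X) (hf : ClosedMapping f)
    (hL : ∀ y, IsLindelof (f ⁻¹' {y})) (𝒰 : Set (Set Y))
    (hU : ∀ U ∈ 𝒰, IsOpen U) (hcov : ⋃₀ 𝒰 = Set.univ) (hcard : #𝒰 < ℵ_ Ordinal.omega0) :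
    HasDeltaThetaRefinement 𝒰 :=
  Pool.Agent.H865.DT.small_covers hX ⟨hf.continuous, hf.surjective, hf.isClosedMap⟩ hL 𝒰 hU hcov
    hcard

theorem below_image {κ : Cardinal.{u}} (hX : CoversHaveSubcoversBelow κ X)
    (hf : ClosedMapping f) : CoversHaveSubcoversBelow κ Y := by
  intro 𝒰 hU hcov
  obtain ⟨𝒱, h1, h2, h3⟩ := hX ((fun U => f ⁻¹' U) '' 𝒰)
    (by rintro _ ⟨U, hU', rfl⟩; exact (hU U hU').preimage hf.continuous)
    (by
      refine eq_univ_of_forall fun x => ?_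
      obtain ⟨U, hU', hx⟩ := mem_sUnion.1 (hcov ▸ mem_univ (f x) : f x ∈ ⋃₀ 𝒰)
      exact mem_sUnion.2 ⟨_, ⟨U, hU', rfl⟩, hx⟩)
  refine ⟨(fun V => f '' V) '' 𝒱, ?_, ?_, lt_of_le_of_lt mk_image_le h3⟩
  · rintro _ ⟨V, hV, rfl⟩
    obtain ⟨U, hU', rfl⟩ := h1 hV
    simp only
    rw [image_preimage_eq _ hf.surjective]
    exact hU'
  · refine eq_univ_of_forall fun y => ?_
    obtain ⟨x, rfl⟩ := hf.surjective y
    obtain ⟨V, hV, hx⟩ := mem_sUnion.1 (h2 ▸ mem_univ x : x ∈ ⋃₀ 𝒱)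
    exact mem_sUnion.2 ⟨f '' V, ⟨V, hV, rfl⟩, mem_image_of_mem _ hx⟩

theorem dtr_of_below (hX : DeltaThetaRefinable X) (hf : ClosedMapping f)
    (hL : ∀ y, IsLindelof (f ⁻¹' {y}))
    (hY : CoversHaveSubcoversBelow (ℵ_ Ordinal.omega0) Y) : DeltaThetaRefinable Y := by
  intro 𝒰 hU hcov
  obtain ⟨𝒱, h1, h2, h3⟩ := hY 𝒰 hU hcov
  obtain ⟨𝒲, w1, w2⟩ := main hX hf hL 𝒱 (fun V hV => hU V (h1 hV)) h2 h3
  refine ⟨𝒲, fun n => ⟨(w1 n).1, (w1 n).2.1, fun W hW => ?_⟩, w2⟩
  obtain ⟨V, hV, h⟩ := (w1 n).2.2 W hW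
  exact ⟨V, h1 hV, h⟩

theorem below_of_card {κ : Cardinal.{u}} (hX : #X < κ) : CoversHaveSubcoversBelow κ X := by
  intro 𝒰 _ hcov
  have h : ∀ x, ∃ U ∈ 𝒰, x ∈ U := fun x => mem_sUnion.1 (hcov ▸ mem_univ x : x ∈ ⋃₀ 𝒰)
  choose g hg hg' using h
  refine ⟨range g, ?_, ?_, lt_of_le_of_lt mk_range_le hX⟩
  · rintro _ ⟨x, rfl⟩
    exact hg x
  · exact eq_univ_of_forall fun x => mem_sUnion.2 ⟨g x, ⟨x, rfl⟩, hg' x⟩

/-- **Theorem.** Let `X` be `δθ`-refinable and let `f : X → Y` be a closed mapping with Lindelöf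
fibres, for instance a perfect mapping. Then every open cover of `Y` of cardinality less than `ℵ_ω`
has a sequence of open refinements as in the definition of `δθ`-refinability. Hence `Y` is
`δθ`-refinable if every open cover of `X`, or every open cover of `Y`, has a subcover of
cardinality less than `ℵ_ω`, in particular if `X` or `Y` has fewer than `ℵ_ω` points. -/
theorem result :
    (∀ (X Y : Type u) [TopologicalSpace X] [TopologicalSpace Y] (f : X → Y),
      DeltaThetaRefinable X → ClosedMapping f → (∀ y, IsLindelof (f ⁻¹' {y})) →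
      ∀ 𝒰 : Set (Set Y), (∀ U ∈ 𝒰, IsOpen U) → ⋃₀ 𝒰 = Set.univ → #𝒰 < ℵ_ Ordinal.omega0 →
        HasDeltaThetaRefinement 𝒰) ∧
    (∀ (X Y : Type u) [TopologicalSpace X] [TopologicalSpace Y] (f : X → Y),
      DeltaThetaRefinable X → ClosedMapping f → (∀ y, IsLindelof (f ⁻¹' {y})) →
      (CoversHaveSubcoversBelow (ℵ_ Ordinal.omega0) X ∨
        CoversHaveSubcoversBelow (ℵ_ Ordinal.omega0) Y ∨
        #X < ℵ_ Ordinal.omega0 ∨ #Y < ℵ_ Ordinal.omega0) → DeltaThetaRefinable Y) := by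
  refine ⟨?_, ?_⟩
  · intro X Y _ _ f hX hf hL 𝒰 hU hcov hcard
    exact main hX hf hL 𝒰 hU hcov hcard
  · intro X Y _ _ f hX hf hL h
    refine dtr_of_below hX hf hL ?_
    rcases h with h | h | h | h
    · exact below_image h hf
    · exact h
    · exact below_image (below_of_card h) hf
    · exact below_of_card h

end Pool.Agent.Results.MP_17359d_gt.LindelofFibresSmallCovers
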