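import Pool.Agent.H865.DT.Neg

/-!
# Perfect images of metalindelöf spaces need not be `δθ`-refinable

If there is a set with the free subset property (for instance an `ω`-Erdős cardinal or a measurable
cardinal), then some perfect image of a metalindelöf `T₁` space is not `δθ`-refinable.  Hence
perfect mappings preserve `δθ`-refinability only if there are no such sets.
-/

set_option autoImplicit false

namespace Pool.Agent.Results.MP_17359d_gt.PerfectImageFails

open Set Topology Cardinal

universe u

/-- A space is `δθ`-refinable (submetalindelöf) if every open cover `𝒰` has a sequence of open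
covers refining `𝒰` such that every point lies in at most countably many members of one of
them. -/
def DeltaThetaRefinable (X : Type u) [TopologicalSpace X] : Prop :=
  ∀ 𝒰 : Set (Set X), (∀ U ∈ 𝒰, IsOpen U) → ⋃₀ 𝒰 = Set.univ →
    ∃ 𝒱 : ℕ → Set (Set X),
      (∀ n, (∀ V ∈ 𝒱 n, IsOpen V) ∧ ⋃₀ 𝒱 n = Set.univ ∧ ∀ V ∈ 𝒱 n, ∃ U ∈ 𝒰, V ⊆ U) ∧
      ∀ x, ∃ n, {V ∈ 𝒱 n | x ∈ V}.Countable

/-- A space is metalindelöf if every open cover has a point-countable open refinement. -/
def Metalindelof (X : Type u) [TopologicalSpace X] : Prop :=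
  ∀ 𝒰 : Set (Set X), (∀ U ∈ 𝒰, IsOpen U) → ⋃₀ 𝒰 = Set.univ →
    ∃ 𝒱 : Set (Set X), (∀ V ∈ 𝒱, IsOpen V) ∧ ⋃₀ 𝒱 = Set.univ ∧
      (∀ x, {V ∈ 𝒱 | x ∈ V}.Countable) ∧ ∀ V ∈ 𝒱, ∃ U ∈ 𝒰, V ⊆ U

/-- A perfect mapping: a continuous closed surjection with compact fibres. -/
structure PerfectMapping {X Y : Type u} [TopologicalSpace X] [TopologicalSpace Y]
    (f : X → Y) : Prop where
  continuous : Continuous f
  surjective : Function.Surjective f
  isClosedMap : IsClosedMap f
  isCompact_fiber : ∀ y : Y, IsCompact (f ⁻¹' {y})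

/-- The free subset property `Fr_ω(κ, ω)`: for every assignment `C` of a countable subset of `κ` to
each finite subset of `κ` there is an infinite set `A ⊆ κ` that is free for `C`, that is, no
`a ∈ A` belongs to `C s` for any finite `s ⊆ A \ {a}`. -/
def FreeSubsets (κ : Type u) : Prop :=
  ∀ C : Finset κ → Set κ, (∀ s, (C s).Countable) →
    ∃ A : Set κ, A.Infinite ∧ ∀ s : Finset κ, (s : Set κ) ⊆ A → ∀ a ∈ A, a ∉ s → a ∉ C s

/-- The partition property `κ → (ω)^{<ω}_ω`: for every colouring of the finite subsets of `κ` with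
countably many colours there is an infinite `H ⊆ κ` such that for each `n` all `n`-element subsets
of `H` have the same colour. -/
def ErdosOmega (κ : Type u) : Prop :=
  ∀ c : Finset κ → ℕ, ∃ H : Set κ, H.Infinite ∧ ∀ s t : Finset κ, (s : Set κ) ⊆ H →
    (t : Set κ) ⊆ H → s.card = t.card → c s = c t

/-- **Perfect images of metalindelöf spaces that are not `δθ`-refinable.** Perfect images of
metalindelöf spaces are always `δθ`-refinable if and only if no set has the free subset property
`Fr_ω(κ, ω)`. More precisely, if `κ` has this property, in particular if `κ → (ω)^{<ω}_ω` or if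
`κ` carries a countably complete nonprincipal ultrafilter, then there are a metalindelöf (hence
`δθ`-refinable) `T₁` space and a perfect mapping of it onto a `T₁` space that is not
`δθ`-refinable. -/
theorem result :
    ((∀ (X Y : Type u) [TopologicalSpace X] [TopologicalSpace Y] (f : X → Y),
        PerfectMapping f → Metalindelof X → DeltaThetaRefinable Y) ↔
      ∀ κ : Type u, ¬ FreeSubsets κ) ∧
    ∀ κ : Type u, (FreeSubsets κ ∨ ErdosOmega κ ∨
        ∃ 𝒟 : Ultrafilter κ, CountableInterFilter (𝒟 : Filter κ) ∧ ∀ a : κ, {a} ∉ 𝒟) →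
      ∃ (X Y : Type u) (_ : TopologicalSpace X) (_ : TopologicalSpace Y) (f : X → Y),
        T1Space X ∧ T1Space Y ∧ PerfectMapping f ∧ Metalindelof X ∧ DeltaThetaRefinable X ∧
          ¬ DeltaThetaRefinable Y := by
  have hperf : ∀ κ : Type u, PerfectMapping
      (Pool.Agent.Results.MP_e848aa_gt.PerfectImages.proj (I := κ)) := by
    intro κ
    have := Pool.Agent.Results.MP_e848aa_gt.PerfectImages.proj_perfect (I := κ)
    exact ⟨this.continuous, this.surjective, this.isClosedMap, this.isCompact_fiber⟩
  refine ⟨⟨?_, ?_⟩, ?_⟩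
  · intro h κ hκ
    exact Pool.Agent.H865.DT.not_deltaTheta hκ (h _ _ _ (hperf κ)
      Pool.Agent.Results.MP_e848aa_gt.PerfectImages.metalindelof_XPt)
  · intro h X Y _ _ f hf hX
    exact Pool.Agent.H865.DT.deltaTheta_of_metalindelof
      (Pool.Agent.Results.MP_e848aa_gt.PerfectImages.metalindelof_of_not_freeSubsets
        (f := f) ⟨⟨hf.continuous, hf.surjective, hf.isClosedMap⟩, hf.isCompact_fiber⟩ hX (h Y))
  · intro κ hκ
    have hfree : Pool.Agent.Results.MP_e848aa_gt.PerfectImages.FreeSubsets κ := by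
      rcases hκ with hκ | hκ | ⟨𝒟, h1, h2⟩
      · exact hκ
      · exact Pool.Agent.Results.MP_e848aa_gt.PerfectImages.freeSubsets_of_erdosOmega hκ
      · have := h1
        exact Pool.Agent.Results.MP_e848aa_gt.PerfectImages.freeSubsets_of_ultrafilter 𝒟 h2
    exact ⟨Pool.Agent.Results.MP_e848aa_gt.PerfectImages.XPt κ,
      Pool.Agent.Results.MP_e848aa_gt.PerfectImages.YPt κ, inferInstance, inferInstance,
      Pool.Agent.Results.MP_e848aa_gt.PerfectImages.proj, inferInstance, inferInstance,
      hperf κ, Pool.Agent.Results.MP_e848aa_gt.PerfectImages.metalindelof_XPt,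
      Pool.Agent.H865.DT.deltaTheta_of_metalindelof
        Pool.Agent.Results.MP_e848aa_gt.PerfectImages.metalindelof_XPt,
      Pool.Agent.H865.DT.not_deltaTheta hfree⟩

end Pool.Agent.Results.MP_17359d_gt.PerfectImageFails
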